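import Pool.Agent.PT57.BM

/-!
Section functions in a finite dimensional inner product space:
for a unit vector `u`, `sec u K s` is the volume, in the hyperplane orthogonal to `u`,
of the section of `K` at height `s`.
-/

open MeasureTheory Set
open scoped Pointwise ENNReal RealInnerProductSpace

namespace PT57

variable {E : Type*} [NormedAddCommGroup E] [InnerProductSpace ℝ E] [FiniteDimensional ℝ E]
  [MeasurableSpace E] [BorelSpace E]

/-- volume of the section of `K` orthogonal to `u` at height `s` -/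
noncomputable def sec (u : E) (K : Set E) (s : ℝ) : ℝ≥0∞ :=
  volume ((fun y : (ℝ ∙ u)ᗮ => s • u + (y : E)) ⁻¹' K)

/-- the product map -/
def prodMap (u : E) (p : ℝ × (ℝ ∙ u)ᗮ) : E := p.1 • u + (p.2 : E)

omit [FiniteDimensional ℝ E] [MeasurableSpace E] [BorelSpace E] in
theorem continuous_prodMap (u : E) : Continuous (prodMap u) := by
  unfold prodMap
  fun_prop

theorem sec_eq_slice (u : E) (K : Set E) (s : ℝ) :
    sec u K s = volume (Prod.mk s ⁻¹' (prodMap u ⁻¹' K)) := rfl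

theorem measurable_sec (u : E) {K : Set E} (hK : MeasurableSet K) : Measurable (sec u K) := by
  have : Measurable (fun s : ℝ => (volume : Measure (ℝ ∙ u)ᗮ) (Prod.mk s ⁻¹' (prodMap u ⁻¹' K))) :=
    measurable_measure_prodMk_left ((continuous_prodMap u).measurable hK)
  exact this

theorem sec_mono (u : E) {K L : Set E} (h : K ⊆ L) (s : ℝ) : sec u K s ≤ sec u L s :=
  measure_mono (preimage_mono h)

theorem mem_perp_iff {u : E} {x : E} : x ∈ (ℝ ∙ u)ᗮ ↔ ⟪u, x⟫ = 0 :=
  Submodule.mem_orthogonal_singleton_iff_inner_right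

theorem image_sec {u : E} (hu : ‖u‖ = 1) (K : Set E) (s : ℝ) :
    (fun y : (ℝ ∙ u)ᗮ => s • u + (y : E)) '' ((fun y : (ℝ ∙ u)ᗮ => s • u + (y : E)) ⁻¹' K) =
      K ∩ {x | ⟪u, x⟫ = s} := by
  have huu : ⟪u, u⟫ = 1 := by rw [real_inner_self_eq_norm_sq, hu]; norm_num
  ext x
  constructor
  · rintro ⟨y, hy, rfl⟩
    refine ⟨hy, ?_⟩
    have := mem_perp_iff.mp y.2
    simp only [mem_ofPred_eq, inner_add_right, inner_smul_right, this, huu]
    ring
  · rintro ⟨hx, hs⟩
    simp only [mem_ofPred_eq] at hs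
    refine ⟨⟨x - s • u, ?_⟩, ?_, ?_⟩
    · rw [mem_perp_iff, inner_sub_right, inner_smul_right, huu, hs]
      ring
    · simpa using hx
    · simp

theorem sec_eq_muHE {u : E} (hu : ‖u‖ = 1) (K : Set E) (s : ℝ) :
    sec u K s = μHE[Module.finrank ℝ E - 1] (K ∩ {x | ⟪u, x⟫ = s}) := by
  have hrank : Module.finrank ℝ (ℝ ∙ u)ᗮ = Module.finrank ℝ E - 1 := by
    have h1 := (ℝ ∙ u).finrank_add_finrank_orthogonal
    have h2 : Module.finrank ℝ (ℝ ∙ u) = 1 := finrank_span_singleton (by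
      intro h
      rw [h] at hu
      simp at hu)
    omega
  have hiso : Isometry (fun y : (ℝ ∙ u)ᗮ => s • u + (y : E)) :=
    (IsometryEquiv.addLeft (s • u)).isometry.comp isometry_subtype_coe
  rw [← image_sec hu, hiso.euclideanHausdorffMeasure_image, ← hrank,
    InnerProductSpace.euclideanHausdorffMeasure_eq_volume]
  rfl

theorem lintegral_sec {u : E} (hu : ‖u‖ = 1) {K : Set E} (hK : MeasurableSet K) :
    ∫⁻ s, sec u K s = volume K := by
  have h0 : u ≠ 0 := by
    intro h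
    rw [h] at hu
    simp at hu
  have h := EuclideanGeometry.euclideanHausdorffMeasure_eq_lintegral (0 : E) h0 hK
  rw [InnerProductSpace.euclideanHausdorffMeasure_eq_volume] at h
  rw [h]
  have h1 : ‖u‖ₑ = 1 := by
    rw [← ofReal_norm_eq_enorm, hu]
    simp
  rw [h1, one_mul]
  apply lintegral_congr
  intro s
  rw [sec_eq_muHE hu]
  congr 2
  ext x
  simp only [mem_ofPred_eq, SetLike.mem_coe, AffineSubspace.mem_mk', vadd_eq_add, vsub_eq_sub,
    add_zero, mem_perp_iff, inner_sub_right, inner_smul_right, real_inner_self_eq_norm_sq, hu]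
  constructor
  · intro h
    rw [h]
    ring
  · intro h
    linarith

theorem sec_compact {u : E} (hu : ‖u‖ = 1) {K : Set E} (hK : IsCompact K) (s : ℝ) :
    IsCompact ((fun y : (ℝ ∙ u)ᗮ => s • u + (y : E)) ⁻¹' K) := by
  have hiso : Isometry (fun y : (ℝ ∙ u)ᗮ => s • u + (y : E)) :=
    (IsometryEquiv.addLeft (s • u)).isometry.comp isometry_subtype_coe
  exact hiso.isClosedEmbedding.isCompact_preimage hK

theorem sec_lt_top {u : E} (hu : ‖u‖ = 1) {K : Set E} (hK : IsCompact K) (s : ℝ) :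
    sec u K s < ⊤ := (sec_compact hu hK s).measure_lt_top

/-- Brunn-Minkowski for sections -/
theorem sec_mid {u : E} (hu : ‖u‖ = 1) {K L : Set E} (hK : IsCompact K) (hL : IsCompact L)
    (s t : ℝ) :
    sec u K s * sec u L t ≤ sec u ((1/2 : ℝ) • (K + L)) ((s + t) / 2) ^ 2 := by
  refine (bm (volume : Measure (ℝ ∙ u)ᗮ) _ _ (sec_compact hu hK s) (sec_compact hu hL t)).trans ?_
  gcongr
  apply measure_mono
  rintro x ⟨y, ⟨p, hp, q, hq, rfl⟩, rfl⟩
  refine ⟨(s • u + (p : E)) + (t • u + (q : E)), ⟨_, hp, _, hq, rfl⟩, ?_⟩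
  simp only [Submodule.coe_smul, Submodule.coe_add]
  module

theorem sec_neg (u : E) (K : Set E) (s : ℝ) : sec u (-K) (-s) = sec u K s := by
  have h := Measure.measure_neg (volume : Measure (ℝ ∙ u)ᗮ)
    ((fun y : (ℝ ∙ u)ᗮ => s • u + (y : E)) ⁻¹' K)
  unfold sec
  rw [← h]
  congr 1
  ext y
  simp only [mem_preimage, Set.mem_neg, Submodule.coe_neg]
  rw [show -(-s • u + (y : E)) = s • u + -(y : E) by module]

theorem sec_add {u : E} (hu : ‖u‖ = 1) (K : Set E) (x : E) (s : ℝ) :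
    sec u ((fun z => z + x) '' K) (s + ⟪u, x⟫) = sec u K s := by
  have hxp : x - ⟪u, x⟫ • u ∈ (ℝ ∙ u)ᗮ := by
    rw [mem_perp_iff, inner_sub_right, inner_smul_right, real_inner_self_eq_norm_sq, hu]
    ring
  have h := measure_preimage_add_right (volume : Measure (ℝ ∙ u)ᗮ)
    (-⟨x - ⟪u, x⟫ • u, hxp⟩) ((fun y : (ℝ ∙ u)ᗮ => s • u + (y : E)) ⁻¹' K)
  unfold sec
  rw [← h]
  congr 1
  ext y
  simp only [mem_preimage, mem_image, Submodule.coe_add, Submodule.coe_neg]
  constructor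
  · rintro ⟨z, hz, hz'⟩
    convert hz using 1
    rw [← add_right_cancel_iff (a := x), hz']
    module
  · intro hz
    exact ⟨_, hz, by module⟩

theorem sec_usc {u : E} (hu : ‖u‖ = 1) {K : Set E} (hK : IsCompact K) :
    UpperSemicontinuous (sec u K) := by
  have huu : ⟪u, u⟫ = 1 := by rw [real_inner_self_eq_norm_sq, hu]; norm_num
  intro s c hc
  obtain ⟨U, hU, hUo, hUc⟩ := Set.exists_isOpen_lt_of_lt _ _ hc
  let pr : E → (ℝ ∙ u)ᗮ := fun x => ⟨x - ⟪u, x⟫ • u, by
    rw [mem_perp_iff, inner_sub_right, inner_smul_right, huu]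
    ring⟩
  have hpr : Continuous pr := by
    apply Continuous.subtype_mk
    fun_prop
  have hcomp : IsCompact ((fun x => ⟪u, x⟫) '' (K ∩ {x | pr x ∈ Uᶜ})) :=
    (hK.inter_right (hUo.isClosed_compl.preimage hpr)).image (by fun_prop)
  have hns : s ∉ (fun x => ⟪u, x⟫) '' (K ∩ {x | pr x ∈ Uᶜ}) := by
    rintro ⟨x, ⟨h1, h2⟩, rfl⟩
    apply h2
    apply hU
    show ⟪u, x⟫ • u + ((pr x : (ℝ ∙ u)ᗮ) : E) ∈ K
    have : ⟪u, x⟫ • u + ((pr x : (ℝ ∙ u)ᗮ) : E) = x := by
      show ⟪u, x⟫ • u + (x - ⟪u, x⟫ • u) = x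
      abel
    rw [this]
    exact h1
  filter_upwards [hcomp.isClosed.isOpen_compl.mem_nhds hns] with t ht
  refine lt_of_le_of_lt (measure_mono ?_) hUc
  intro y hy
  by_contra hyU
  apply ht
  have h1 : ⟪u, t • u + (y : E)⟫ = t := by
    rw [inner_add_right, inner_smul_right, huu, mem_perp_iff.mp y.2]
    ring
  refine ⟨t • u + (y : E), ⟨hy, ?_⟩, h1⟩
  have : pr (t • u + (y : E)) = y := by
    apply Subtype.ext
    show t • u + (y : E) - ⟪u, t • u + (y : E)⟫ • u = y
    rw [h1]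
    abel
  show pr (t • u + (y : E)) ∈ Uᶜ
  rw [this]
  exact hyU

theorem sec_pos {u : E} (hu : ‖u‖ = 1) {K : Set E} {x : E} (hx : x ∈ interior K) :
    0 < sec u K ⟪u, x⟫ := by
  have huu : ⟪u, u⟫ = 1 := by rw [real_inner_self_eq_norm_sq, hu]; norm_num
  have hopen : IsOpen ((fun y : (ℝ ∙ u)ᗮ => ⟪u, x⟫ • u + (y : E)) ⁻¹' (interior K)) :=
    isOpen_interior.preimage (by fun_prop)
  have hne : ((fun y : (ℝ ∙ u)ᗮ => ⟪u, x⟫ • u + (y : E)) ⁻¹' (interior K)).Nonempty := by
    refine ⟨⟨x - ⟪u, x⟫ • u, ?_⟩, ?_⟩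
    · rw [mem_perp_iff, inner_sub_right, inner_smul_right, huu]
      ring
    · simpa using hx
  exact (hopen.measure_pos volume hne).trans_le (measure_mono (preimage_mono interior_subset))

/-- the section vanishes outside the projection -/
theorem sec_eq_zero {u : E} (hu : ‖u‖ = 1) {K : Set E} {s : ℝ}
    (h : ∀ x ∈ K, ⟪u, x⟫ ≠ s) : sec u K s = 0 := by
  have huu : ⟪u, u⟫ = 1 := by rw [real_inner_self_eq_norm_sq, hu]; norm_num
  have : (fun y : (ℝ ∙ u)ᗮ => s • u + (y : E)) ⁻¹' K = ∅ := by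
    ext y
    simp only [mem_preimage, mem_empty_iff_false, iff_false]
    intro hy
    apply h _ hy
    rw [inner_add_right, inner_smul_right, huu, mem_perp_iff.mp y.2]
    ring
  unfold sec
  rw [this]
  simp

/-- the section function is bounded -/
theorem sec_bdd {u : E} (hu : ‖u‖ = 1) {K : Set E} (hK : IsCompact K) :
    ∃ M : ℝ≥0∞, M < ⊤ ∧ ∀ s, sec u K s ≤ M := by
  have huu : ⟪u, u⟫ = 1 := by rw [real_inner_self_eq_norm_sq, hu]; norm_num
  let pr : E → (ℝ ∙ u)ᗮ := fun x => ⟨x - ⟪u, x⟫ • u, by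
    rw [mem_perp_iff, inner_sub_right, inner_smul_right, huu]
    ring⟩
  have hpr : Continuous pr := by
    apply Continuous.subtype_mk
    fun_prop
  refine ⟨volume (pr '' K), (hK.image hpr).measure_lt_top, fun s => measure_mono ?_⟩
  intro y hy
  have h1 : ⟪u, s • u + (y : E)⟫ = s := by
    rw [inner_add_right, inner_smul_right, huu, mem_perp_iff.mp y.2]
    ring
  refine ⟨s • u + (y : E), hy, ?_⟩
  apply Subtype.ext
  show s • u + (y : E) - ⟪u, s • u + (y : E)⟫ • u = y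
  rw [h1]
  abel

end PT57
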