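import Mathlib

/-!
Multiplicative Brunn-Minkowski inequality for compact sets
in a finite dimensional real normed space:
`μ A * μ B ≤ μ ((1/2) • (A + B)) ^ 2`.
-/

open MeasureTheory Set
open scoped Pointwise ENNReal

namespace PT57

/-- one dimensional Brunn-Minkowski for nonempty compact sets -/
theorem bm_one_compact {S T : Set ℝ} (hS : IsCompact S) (hT : IsCompact T)
    (hS0 : S.Nonempty) (hT0 : T.Nonempty) :
    volume S + volume T ≤ volume (S + T) := by
  obtain ⟨a, ha, hamax⟩ := hS.exists_isGreatest hS0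
  obtain ⟨b, hb, hbmin⟩ := hT.exists_isLeast hT0
  have h1 : volume ((fun x => x + b) '' S) = volume S := by
    have := measure_preimage_add_right volume (-b) S
    rw [← this]
    congr 1
    ext x
    constructor
    · rintro ⟨y, hy, rfl⟩
      simpa using hy
    · intro hx
      exact ⟨x + -b, hx, by ring⟩
  have h2 : volume ((fun x => a + x) '' T) = volume T := by
    have := measure_preimage_add volume (-a) T
    rw [← this]
    congr 1
    ext x
    constructor
    · rintro ⟨y, hy, rfl⟩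
      simpa using hy
    · intro hx
      exact ⟨-a + x, hx, by ring⟩
  have hd : AEDisjoint volume ((fun x => x + b) '' S) ((fun x => a + x) '' T) := by
    refine measure_mono_null ?_ (measure_singleton (a + b))
    rintro x ⟨⟨y, hy, rfl⟩, ⟨z, hz, hz'⟩⟩
    have h3 := hamax hy
    have h4 := hbmin hz
    simp only at hz'
    simp only [mem_singleton_iff]
    linarith
  have hm : NullMeasurableSet ((fun x => a + x) '' T) volume :=
    ((hT.image (continuous_const.add continuous_id)).measurableSet).nullMeasurableSet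
  calc volume S + volume T
      = volume ((fun x => x + b) '' S) + volume ((fun x => a + x) '' T) := by rw [h1, h2]
    _ = volume (((fun x => x + b) '' S) ∪ ((fun x => a + x) '' T)) :=
        (measure_union₀ hm hd).symm
    _ ≤ volume (S + T) := by
        apply measure_mono
        rintro x (⟨y, hy, rfl⟩ | ⟨y, hy, rfl⟩)
        · exact add_mem_add hy hb
        · exact add_mem_add ha hy

/-- one dimensional Brunn-Minkowski for nonempty measurable sets, midpoint form -/
theorem bm_one {S T U : Set ℝ} (hS : MeasurableSet S) (hT : MeasurableSet T)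
    (hS0 : S.Nonempty) (hT0 : T.Nonempty)
    (hU : ∀ s ∈ S, ∀ t ∈ T, (s + t) / 2 ∈ U) :
    volume S + volume T ≤ 2 * volume U := by
  obtain ⟨s0, hs0⟩ := hS0
  obtain ⟨t0, ht0⟩ := hT0
  have hdil : volume ((fun x : ℝ => x / 2) ⁻¹' U) = 2 * volume U := by
    have h := Real.volume_preimage_mul_right (a := (1/2:ℝ)) (by norm_num) U
    have e : ((fun x : ℝ => x * (1/2)) ⁻¹' U) = ((fun x : ℝ => x / 2) ⁻¹' U) := by
      ext x
      simp only [mem_preimage]
      rw [show x * (1/2) = x / 2 by ring]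
    rw [e] at h
    rw [h]
    norm_num
  have key : ∀ K ⊆ S, IsCompact K → ∀ L ⊆ T, IsCompact L →
      volume K + volume L ≤ 2 * volume U := by
    intro K hK hKc L hL hLc
    have h := bm_one_compact (hKc.insert s0) (hLc.insert t0) (insert_nonempty _ _)
      (insert_nonempty _ _)
    calc volume K + volume L ≤ volume (insert s0 K) + volume (insert t0 L) := by
          gcongr <;> exact subset_insert _ _
      _ ≤ volume (insert s0 K + insert t0 L) := h
      _ ≤ volume ((fun x : ℝ => x / 2) ⁻¹' U) := by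
          apply measure_mono
          rintro x ⟨y, hy, z, hz, rfl⟩
          exact hU y (insert_subset hs0 hK hy) z (insert_subset ht0 hL hz)
      _ = 2 * volume U := hdil
  by_contra hcon
  push Not at hcon
  by_cases hS1 : volume S = 0
  · rw [hS1, zero_add] at hcon
    obtain ⟨L, hL, hLc, hlt⟩ := hT.exists_lt_isCompact hcon
    have := key ∅ (empty_subset _) isCompact_empty L hL hLc
    simp only [measure_empty, zero_add] at this
    exact absurd this (not_le.mpr hlt)
  by_cases hT1 : volume T = 0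
  · rw [hT1, add_zero] at hcon
    obtain ⟨L, hL, hLc, hlt⟩ := hS.exists_lt_isCompact hcon
    have := key L hL hLc ∅ (empty_subset _) isCompact_empty
    simp only [measure_empty, add_zero] at this
    exact absurd this (not_le.mpr hlt)
  obtain ⟨p, hp, q, hq, hpq⟩ := ENNReal.exists_lt_add_of_lt_add hcon hS1 hT1
  obtain ⟨K, hK, hKc, hKlt⟩ := hS.exists_lt_isCompact hp
  obtain ⟨L, hL, hLc, hLlt⟩ := hT.exists_lt_isCompact hq
  have h1 := key K hK hKc L hL hLc
  have h2 : p + q ≤ volume K + volume L := add_le_add hKlt.le hLlt.le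
  exact absurd (hpq.trans_le (h2.trans h1)) (lt_irrefl _)

/-- level set comparison in dimension one (the sup-normalised form of Prekopa-Leindler) -/
theorem level_one {F G H : ℝ → ℝ} (hF : Measurable F) (hG : Measurable G) (hH : Measurable H)
    (hF0 : ∀ s, 0 ≤ F s) (hG0 : ∀ s, 0 ≤ G s) (hH0 : ∀ s, 0 ≤ H s)
    (hF1 : ∀ s, F s ≤ 1) (hG1 : ∀ s, G s ≤ 1)
    (hF2 : ∀ c < 1, ∃ s, c < F s) (hG2 : ∀ c < 1, ∃ s, c < G s)
    (hFGH : ∀ s t, min (F s) (G t) ≤ H ((s + t) / 2)) :
    (∫⁻ s, ENNReal.ofReal (F s)) + (∫⁻ s, ENNReal.ofReal (G s)) ≤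
      2 * ∫⁻ s, ENNReal.ofReal (H s) := by
  have mF : Measurable (fun t : ℝ => volume {a : ℝ | t < F a}) := by
    apply Antitone.measurable
    intro x y hxy
    apply measure_mono
    intro a ha
    exact lt_of_le_of_lt hxy ha
  rw [lintegral_eq_lintegral_meas_lt volume (Filter.Eventually.of_forall hF0) hF.aemeasurable,
    lintegral_eq_lintegral_meas_lt volume (Filter.Eventually.of_forall hG0) hG.aemeasurable,
    lintegral_eq_lintegral_meas_lt volume (Filter.Eventually.of_forall hH0) hH.aemeasurable,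
    ← lintegral_add_left mF, ← lintegral_const_mul' _ _ (by norm_num)]
  apply lintegral_mono
  intro c
  show volume {a : ℝ | c < F a} + volume {a : ℝ | c < G a} ≤ 2 * volume {a : ℝ | c < H a}
  by_cases hc : c < 1
  · apply bm_one
    · exact measurableSet_lt measurable_const hF
    · exact measurableSet_lt measurable_const hG
    · exact hF2 c hc
    · exact hG2 c hc
    · intro s hs t ht
      exact lt_of_lt_of_le (lt_min hs ht) (hFGH s t)
  · have e1 : {a : ℝ | c < F a} = ∅ := by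
      ext a
      simp only [mem_ofPred_eq, mem_empty_iff_false, iff_false, not_lt]
      exact (hF1 a).trans (not_lt.mp hc)
    have e2 : {a : ℝ | c < G a} = ∅ := by
      ext a
      simp only [mem_ofPred_eq, mem_empty_iff_false, iff_false, not_lt]
      exact (hG1 a).trans (not_lt.mp hc)
    rw [e1, e2]
    simp

/-- multiplicative midpoint Brunn-Minkowski property of a measure -/
def BMProp {X : Type*} [NormedAddCommGroup X] [NormedSpace ℝ X] [MeasurableSpace X]
    (μ : Measure X) : Prop :=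
  ∀ A B : Set X, IsCompact A → IsCompact B → μ A * μ B ≤ μ ((1/2 : ℝ) • (A + B)) ^ 2

section product

variable {X : Type*} [NormedAddCommGroup X] [NormedSpace ℝ X] [MeasurableSpace X] [BorelSpace X]
  [SecondCountableTopology X] (μ : Measure X) [SFinite μ] [IsFiniteMeasureOnCompacts μ]

theorem slice_compact {A : Set (ℝ × X)} (hA : IsCompact A) (s : ℝ) :
    IsCompact (Prod.mk s ⁻¹' A) := by
  have e : Prod.mk s ⁻¹' A = Prod.snd '' (A ∩ {p | p.1 = s}) := by
    ext x
    constructor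
    · intro hx
      exact ⟨(s, x), ⟨hx, rfl⟩, rfl⟩
    · rintro ⟨⟨s', y⟩, ⟨hy, hs⟩, rfl⟩
      simp only [mem_ofPred_eq] at hs
      subst hs
      exact hy
  rw [e]
  exact (hA.inter_right (isClosed_eq continuous_fst continuous_const)).image continuous_snd

theorem slice_bdd {A : Set (ℝ × X)} (hA : IsCompact A) :
    BddAbove (range fun s : ℝ => (μ (Prod.mk s ⁻¹' A)).toReal) := by
  refine ⟨(μ (Prod.snd '' A)).toReal, ?_⟩
  rintro _ ⟨s, rfl⟩
  apply ENNReal.toReal_mono (hA.image continuous_snd).measure_lt_top.ne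
  apply measure_mono
  intro x hx
  exact ⟨(s, x), hx, rfl⟩

theorem slice_meas {A : Set (ℝ × X)} (hA : IsCompact A) :
    Measurable (fun s : ℝ => (μ (Prod.mk s ⁻¹' A)).toReal) :=
  (measurable_measure_prodMk_left hA.measurableSet).ennreal_toReal

theorem slice_int {A : Set (ℝ × X)} (hA : IsCompact A) :
    ∫⁻ s, ENNReal.ofReal (μ (Prod.mk s ⁻¹' A)).toReal = (volume.prod μ) A := by
  rw [Measure.prod_apply hA.measurableSet]
  apply lintegral_congr
  intro s
  exact ENNReal.ofReal_toReal (slice_compact hA s).measure_lt_top.ne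

theorem slice_int_div {A : Set (ℝ × X)} (hA : IsCompact A) {r : ℝ} (hr : 0 < r) :
    ∫⁻ s, ENNReal.ofReal ((μ (Prod.mk s ⁻¹' A)).toReal / r) =
      ENNReal.ofReal (((volume.prod μ) A).toReal / r) := by
  have hfin : (volume.prod μ) A ≠ ⊤ := hA.measure_lt_top.ne
  have e : ∀ s : ℝ, ENNReal.ofReal ((μ (Prod.mk s ⁻¹' A)).toReal / r) =
      ENNReal.ofReal (μ (Prod.mk s ⁻¹' A)).toReal * ENNReal.ofReal (1 / r) := by
    intro s
    rw [← ENNReal.ofReal_mul ENNReal.toReal_nonneg]
    congr 1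
    ring
  simp_rw [e]
  rw [lintegral_mul_const' _ _ ENNReal.ofReal_ne_top, slice_int μ hA]
  nth_rewrite 1 [← ENNReal.ofReal_toReal hfin]
  rw [← ENNReal.ofReal_mul ENNReal.toReal_nonneg]
  congr 1
  ring

theorem slice_pos {A : Set (ℝ × X)} (hA : IsCompact A) (h : (volume.prod μ) A ≠ 0) :
    0 < ⨆ s : ℝ, (μ (Prod.mk s ⁻¹' A)).toReal := by
  by_contra hcon
  push Not at hcon
  apply h
  rw [← slice_int μ hA]
  have : ∀ s : ℝ, ENNReal.ofReal (μ (Prod.mk s ⁻¹' A)).toReal = 0 := by
    intro s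
    rw [ENNReal.ofReal_eq_zero]
    exact (le_ciSup (slice_bdd μ hA) s).trans hcon
  simp [this]

theorem slice_mid {A B : Set (ℝ × X)} (hμ : BMProp μ) (hA : IsCompact A) (hB : IsCompact B)
    (s t : ℝ) :
    (μ (Prod.mk s ⁻¹' A)).toReal * (μ (Prod.mk t ⁻¹' B)).toReal ≤
      (μ (Prod.mk ((s + t) / 2) ⁻¹' ((1/2 : ℝ) • (A + B)))).toReal ^ 2 := by
  have hM : IsCompact ((1/2 : ℝ) • (A + B)) := (hA.add hB).smul _
  rw [← ENNReal.toReal_mul, ← ENNReal.toReal_pow]
  apply ENNReal.toReal_mono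
  · exact ENNReal.pow_ne_top (slice_compact hM _).measure_lt_top.ne
  · refine (hμ _ _ (slice_compact hA s) (slice_compact hB t)).trans ?_
    gcongr
    rintro x ⟨y, ⟨p, hp, q, hq, rfl⟩, rfl⟩
    refine ⟨(s, p) + (t, q), ⟨(s, p), hp, (t, q), hq, rfl⟩, ?_⟩
    ext
    · simp
      ring
    · simp

theorem min_le_of_mul_le_sq {x y z : ℝ} (hx : 0 ≤ x) (hy : 0 ≤ y) (hz : 0 ≤ z)
    (h : x * y ≤ z ^ 2) : min x y ≤ z := by
  by_contra hcon
  push Not at hcon
  obtain ⟨h1, h2⟩ := lt_min_iff.mp hcon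
  nlinarith

/-- slab form of the product step -/
theorem slab' {A B : Set (ℝ × X)} (hμ : BMProp μ) (hA : IsCompact A) (hB : IsCompact B)
    (pA : 0 < ⨆ s : ℝ, (μ (Prod.mk s ⁻¹' A)).toReal)
    (pB : 0 < ⨆ s : ℝ, (μ (Prod.mk s ⁻¹' B)).toReal) :
    ((volume.prod μ) A).toReal / (⨆ s : ℝ, (μ (Prod.mk s ⁻¹' A)).toReal) +
      ((volume.prod μ) B).toReal / (⨆ s : ℝ, (μ (Prod.mk s ⁻¹' B)).toReal) ≤
    2 * (((volume.prod μ) ((1/2 : ℝ) • (A + B))).toReal /
      Real.sqrt ((⨆ s : ℝ, (μ (Prod.mk s ⁻¹' A)).toReal) *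
        (⨆ s : ℝ, (μ (Prod.mk s ⁻¹' B)).toReal))) := by
  have hM : IsCompact ((1/2 : ℝ) • (A + B)) := (hA.add hB).smul _
  set MA := ⨆ s : ℝ, (μ (Prod.mk s ⁻¹' A)).toReal with hMA
  set MB := ⨆ s : ℝ, (μ (Prod.mk s ⁻¹' B)).toReal with hMB
  set R := Real.sqrt (MA * MB) with hR
  have pR : 0 < R := Real.sqrt_pos.mpr (mul_pos pA pB)
  have R2 : R ^ 2 = MA * MB := Real.sq_sqrt (mul_pos pA pB).le
  have key := level_one
    (F := fun s => (μ (Prod.mk s ⁻¹' A)).toReal / MA)
    (G := fun s => (μ (Prod.mk s ⁻¹' B)).toReal / MB)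
    (H := fun s => (μ (Prod.mk s ⁻¹' ((1/2 : ℝ) • (A + B)))).toReal / R)
    ((slice_meas μ hA).div_const _) ((slice_meas μ hB).div_const _)
    ((slice_meas μ hM).div_const _)
    (fun s => div_nonneg ENNReal.toReal_nonneg pA.le)
    (fun s => div_nonneg ENNReal.toReal_nonneg pB.le)
    (fun s => div_nonneg ENNReal.toReal_nonneg pR.le)
    (fun s => (div_le_one pA).mpr (le_ciSup (slice_bdd μ hA) s))
    (fun s => (div_le_one pB).mpr (le_ciSup (slice_bdd μ hB) s))
    (by
      intro c hc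
      have : c * MA < MA := by nlinarith
      obtain ⟨s, hs⟩ := exists_lt_of_lt_ciSup (hMA ▸ this)
      exact ⟨s, (lt_div_iff₀ pA).mpr hs⟩)
    (by
      intro c hc
      have : c * MB < MB := by nlinarith
      obtain ⟨s, hs⟩ := exists_lt_of_lt_ciSup (hMB ▸ this)
      exact ⟨s, (lt_div_iff₀ pB).mpr hs⟩)
    (by
      intro s t
      apply min_le_of_mul_le_sq
      · exact div_nonneg ENNReal.toReal_nonneg pA.le
      · exact div_nonneg ENNReal.toReal_nonneg pB.le
      · exact div_nonneg ENNReal.toReal_nonneg pR.le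
      · rw [div_mul_div_comm, div_pow, R2]
        gcongr
        exact slice_mid μ hμ hA hB s t)
  rw [slice_int_div μ hA pA, slice_int_div μ hB pB, slice_int_div μ hM pR] at key
  rw [← ENNReal.ofReal_add (by positivity) (by positivity)] at key
  have e2 : (2 : ℝ≥0∞) = ENNReal.ofReal 2 := by norm_num
  rw [e2, ← ENNReal.ofReal_mul (by norm_num)] at key
  exact (ENNReal.ofReal_le_ofReal_iff (by positivity)).mp key

/-- squared slab form -/
theorem slab_sq' {A B : Set (ℝ × X)} (hμ : BMProp μ) (hA : IsCompact A) (hB : IsCompact B)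
    (pA : 0 < ⨆ s : ℝ, (μ (Prod.mk s ⁻¹' A)).toReal)
    (pB : 0 < ⨆ s : ℝ, (μ (Prod.mk s ⁻¹' B)).toReal) :
    (((volume.prod μ) A).toReal * (⨆ s : ℝ, (μ (Prod.mk s ⁻¹' B)).toReal) +
      ((volume.prod μ) B).toReal * (⨆ s : ℝ, (μ (Prod.mk s ⁻¹' A)).toReal)) ^ 2 ≤
    4 * ((volume.prod μ) ((1/2 : ℝ) • (A + B))).toReal ^ 2 *
      ((⨆ s : ℝ, (μ (Prod.mk s ⁻¹' A)).toReal) *
        (⨆ s : ℝ, (μ (Prod.mk s ⁻¹' B)).toReal)) := by
  have h := slab' μ hμ hA hB pA pB
  set MA := ⨆ s : ℝ, (μ (Prod.mk s ⁻¹' A)).toReal with hMA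
  set MB := ⨆ s : ℝ, (μ (Prod.mk s ⁻¹' B)).toReal with hMB
  set R := Real.sqrt (MA * MB) with hR
  have pR : 0 < R := Real.sqrt_pos.mpr (mul_pos pA pB)
  have R2 : R ^ 2 = MA * MB := Real.sq_sqrt (mul_pos pA pB).le
  set a := ((volume.prod μ) A).toReal
  set b := ((volume.prod μ) B).toReal
  set m := ((volume.prod μ) ((1/2 : ℝ) • (A + B))).toReal
  have ha : 0 ≤ a := ENNReal.toReal_nonneg
  have hb : 0 ≤ b := ENNReal.toReal_nonneg
  have h1 : (a / MA + b / MB) * (MA * MB) ≤ 2 * (m / R) * R ^ 2 := by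
    rw [← R2]
    exact mul_le_mul_of_nonneg_right h (by positivity)
  have h2 : (a / MA + b / MB) * (MA * MB) = a * MB + b * MA := by
    field_simp
  have h3 : 2 * (m / R) * R ^ 2 = 2 * m * R := by
    field_simp
  rw [h2, h3] at h1
  calc (a * MB + b * MA) ^ 2 ≤ (2 * m * R) ^ 2 := by
        gcongr
    _ = 4 * m ^ 2 * (MA * MB) := by rw [mul_pow, R2]; ring

/-- squared slab form for sets of positive measure -/
theorem slab_sq {A B : Set (ℝ × X)} (hμ : BMProp μ) (hA : IsCompact A) (hB : IsCompact B)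
    (hA0 : (volume.prod μ) A ≠ 0) (hB0 : (volume.prod μ) B ≠ 0) :
    (((volume.prod μ) A).toReal * (⨆ s : ℝ, (μ (Prod.mk s ⁻¹' B)).toReal) +
      ((volume.prod μ) B).toReal * (⨆ s : ℝ, (μ (Prod.mk s ⁻¹' A)).toReal)) ^ 2 ≤
    4 * ((volume.prod μ) ((1/2 : ℝ) • (A + B))).toReal ^ 2 *
      ((⨆ s : ℝ, (μ (Prod.mk s ⁻¹' A)).toReal) *
        (⨆ s : ℝ, (μ (Prod.mk s ⁻¹' B)).toReal)) :=
  slab_sq' μ hμ hA hB (slice_pos μ hA hA0) (slice_pos μ hB hB0)

/-- the product step -/
theorem BMProp.prod (hμ : BMProp μ) : BMProp (volume.prod μ : Measure (ℝ × X)) := by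
  intro A B hA hB
  by_cases hA0 : (volume.prod μ) A = 0
  · simp [hA0]
  by_cases hB0 : (volume.prod μ) B = 0
  · simp [hB0]
  have hM : IsCompact ((1/2 : ℝ) • (A + B)) := (hA.add hB).smul _
  have h := slab_sq μ hμ hA hB hA0 hB0
  have pA := slice_pos μ hA hA0
  have pB := slice_pos μ hB hB0
  set MA := ⨆ s : ℝ, (μ (Prod.mk s ⁻¹' A)).toReal with hMA
  set MB := ⨆ s : ℝ, (μ (Prod.mk s ⁻¹' B)).toReal with hMB
  have hab : ((volume.prod μ) A).toReal * ((volume.prod μ) B).toReal ≤
      ((volume.prod μ) ((1/2 : ℝ) • (A + B))).toReal ^ 2 := by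
    set a := ((volume.prod μ) A).toReal
    set b := ((volume.prod μ) B).toReal
    set m := ((volume.prod μ) ((1/2 : ℝ) • (A + B))).toReal
    have h4 : 4 * (a * b) * (MA * MB) ≤ 4 * m ^ 2 * (MA * MB) := by
      nlinarith [sq_nonneg (a * MB - b * MA)]
    have h5 := le_of_mul_le_mul_right h4 (mul_pos pA pB)
    linarith
  rw [← ENNReal.toReal_mul, ← ENNReal.toReal_pow] at hab
  exact (ENNReal.toReal_le_toReal
    (ENNReal.mul_ne_top hA.measure_lt_top.ne hB.measure_lt_top.ne)
    (ENNReal.pow_ne_top hM.measure_lt_top.ne)).mp hab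

end product

section transfer

variable {E F : Type*} [NormedAddCommGroup E] [NormedSpace ℝ E] [FiniteDimensional ℝ E]
  [MeasurableSpace E] [BorelSpace E]
  [NormedAddCommGroup F] [NormedSpace ℝ F] [FiniteDimensional ℝ F]
  [MeasurableSpace F] [BorelSpace F]

theorem BMProp.transfer {μ : Measure E} [μ.IsAddHaarMeasure] (h : BMProp μ) (ν : Measure F)
    [ν.IsAddHaarMeasure] (e : F ≃L[ℝ] E) : BMProp ν := by
  intro A B hA hB
  have : ProperSpace E := FiniteDimensional.proper ℝ E
  have : SecondCountableTopology E := secondCountable_of_proper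
  have hν := Measure.isAddLeftInvariant_eq_smul (ν.map e) μ
  set c := Measure.addHaarScalarFactor (ν.map e) μ with hc
  have hme : ∀ S : Set F, ν S = (c : ℝ≥0∞) * μ (e '' S) := by
    intro S
    have h1 : (ν.map e) (e '' S) = ν S := by
      have h2 := e.toHomeomorph.toMeasurableEquiv.map_apply (μ := ν) (e '' S)
      have h3 : (e.toHomeomorph.toMeasurableEquiv : F → E) = e := rfl
      rw [h3] at h2
      rw [h2, preimage_image_eq _ e.injective]
    rw [← h1, hν]
    rfl
  have hi : e '' ((1/2 : ℝ) • (A + B)) = (1/2 : ℝ) • (e '' A + e '' B) := by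
    rw [← image_add]
    exact image_smul_set e (1/2 : ℝ) (A + B)
  rw [hme A, hme B, hme, hi]
  calc (c : ℝ≥0∞) * μ (e '' A) * (c * μ (e '' B))
      = c ^ 2 * (μ (e '' A) * μ (e '' B)) := by ring
    _ ≤ c ^ 2 * μ ((1/2 : ℝ) • (e '' A + e '' B)) ^ 2 := by
        gcongr
        exact h _ _ (hA.image e.continuous) (hB.image e.continuous)
    _ = (c * μ ((1/2 : ℝ) • (e '' A + e '' B))) ^ 2 := by ring

end transfer

theorem BMProp.zero {F : Type*} [NormedAddCommGroup F] [NormedSpace ℝ F]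
    [MeasurableSpace F] (ν : Measure F) [Subsingleton F] : BMProp ν := by
  intro A B hA hB
  rcases A.eq_empty_or_nonempty with rfl | hA0
  · simp
  rcases B.eq_empty_or_nonempty with rfl | hB0
  · simp
  have h1 : A = univ := Subsingleton.eq_univ_of_nonempty hA0
  have h2 : B = univ := Subsingleton.eq_univ_of_nonempty hB0
  have h3 : (1/2 : ℝ) • (A + B) = univ :=
    Subsingleton.eq_univ_of_nonempty ((hA0.add hB0).smul_set)
  rw [h1, h2] at *
  rw [h3, sq]

theorem bm_fin (n : ℕ) : BMProp (volume : Measure (EuclideanSpace ℝ (Fin n))) := by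
  induction n with
  | zero => exact BMProp.zero _
  | succ n ih =>
    have e : EuclideanSpace ℝ (Fin (n+1)) ≃L[ℝ] ℝ × EuclideanSpace ℝ (Fin n) := by
      apply ContinuousLinearEquiv.ofFinrankEq
      simp [add_comm]
    exact (BMProp.prod _ ih).transfer _ e

/-- **Brunn-Minkowski** (multiplicative, midpoint, compact sets) -/
theorem bm {E : Type*} [NormedAddCommGroup E] [NormedSpace ℝ E] [FiniteDimensional ℝ E]
    [MeasurableSpace E] [BorelSpace E] (ν : Measure E) [ν.IsAddHaarMeasure] : BMProp ν :=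
  (bm_fin (Module.finrank ℝ E)).transfer ν (ContinuousLinearEquiv.ofFinrankEq (by simp))

end PT57
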